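import Mathlib
import Pool.Agent.Lib.MP_5fed26_pr.Lower
import Pool.Agent.Lib.MP_5fed26_pr.Example

/-!
# The maximal oscillation problem for standard p-functions

`I(M) = max (0, 1 + log M)` for every `0 < M ≤ 1`.
-/

namespace Pool.Agent.Results.MP_5fed26_pr.MaxOscillation

open MeasureTheory Filter Topology
open scoped NNReal

/-- `p : [0,∞) → ℝ` is a p-function: `p 0 = 1` and on some probability space `(Ω, P)` there are
measurable events `E t`, `t ≥ 0`, with `P (E t) = p t` and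
`P (E t₀ ∩ ... ∩ E tₙ) = p t₀ * P (E (t₁ - t₀) ∩ ... ∩ E (tₙ - t₀))`
for all `0 ≤ t₀ ≤ t₁ ≤ ... ≤ tₙ`. -/
def IsPFunction (p : ℝ≥0 → ℝ) : Prop :=
  p 0 = 1 ∧
    ∃ (Ω : Type) (_ : MeasurableSpace Ω) (P : Measure Ω) (E : ℝ≥0 → Set Ω),
      IsProbabilityMeasure P ∧ (∀ t, MeasurableSet (E t)) ∧ (∀ t, P.real (E t) = p t) ∧
      ∀ (n : ℕ) (t : Fin (n + 1) → ℝ≥0), Monotone t →
        P.real (⋂ i, E (t i)) = p (t 0) * P.real (⋂ i : Fin n, E (t i.succ - t 0))

/-- `p t → 1` as `t → 0+`. -/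
def IsStandard (p : ℝ≥0 → ℝ) : Prop := Tendsto p (𝓝[>] 0) (𝓝 1)

/-- `m(M; p)`, the infimum of `p` over `[0, 1]`. -/
noncomputable def infOn (p : ℝ≥0 → ℝ) : ℝ := sInf (p '' Set.Icc 0 1)

/-- `I(M)`, the infimum of `m(M; p)` over all standard p-functions with `p 1 = M`. -/
noncomputable def I (M : ℝ) : ℝ :=
  sInf {x : ℝ | ∃ p : ℝ≥0 → ℝ, IsPFunction p ∧ IsStandard p ∧ p 1 = M ∧ x = infOn p}

open Pool.Agent.MP5fed26

lemma two_point' {p : ℝ≥0 → ℝ} (hp : IsPFunction p) (hs : IsStandard p) {s t : ℝ≥0}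
    (hst : s ≤ t) : p t ≤ Real.exp (p s - 1) := by
  obtain ⟨hp0, Ω, mΩ, P, E, hP, hE, hEp, hprod⟩ := hp
  exact two_point hE hEp hprod hp0 hs hst

lemma nonneg' {p : ℝ≥0 → ℝ} (hp : IsPFunction p) (t : ℝ≥0) : 0 ≤ p t := by
  obtain ⟨hp0, Ω, mΩ, P, E, hP, hE, hEp, hprod⟩ := hp
  rw [← hEp t]; exact measureReal_nonneg

lemma pex_isPFunction {d a : ℝ} (hd : 0 < d) (ha : 0 ≤ a) : IsPFunction (pex d a) :=
  ⟨pex_zero hd ha, (ℕ → ℝ), inferInstance, Pm, fun t => Ev d (a * (t : ℝ)), inferInstance,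
    fun _ => measurableSet_Ev d _, fun _ => rfl, fun n t ht => pex_prod hd ha n t ht⟩

lemma one_isPFunction : IsPFunction (fun _ => 1) := by
  refine ⟨rfl, Unit, inferInstance, Measure.dirac (), fun _ => Set.univ, inferInstance,
    fun _ => MeasurableSet.univ, fun _ => by simp, fun n t _ => by simp⟩

lemma infOn_le {p : ℝ≥0 → ℝ} (hp : IsPFunction p) {t : ℝ≥0} (ht : t ≤ 1) : infOn p ≤ p t := by
  refine csInf_le ⟨0, ?_⟩ ⟨t, ⟨zero_le, ht⟩, rfl⟩
  rintro x ⟨s, _, rfl⟩
  exact nonneg' hp s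

lemma le_infOn {p : ℝ≥0 → ℝ} (hp : IsPFunction p) (hs : IsStandard p) {M : ℝ} (hM : 0 < M)
    (h1 : p 1 = M) : max 0 (1 + Real.log M) ≤ infOn p := by
  refine le_csInf ⟨p 0, 0, ⟨le_rfl, zero_le⟩, rfl⟩ ?_
  rintro x ⟨t, ht, rfl⟩
  refine max_le (nonneg' hp t) ?_
  have h2 := two_point' hp hs ht.2
  rw [h1] at h2
  have h3 := Real.log_le_log hM h2
  rw [Real.log_exp] at h3
  linarith

/-- the parameters of the example -/
lemma exists_params {M ε : ℝ} (hM : 0 < M) (hM1 : M < 1) (hε : 0 < ε) :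
    ∃ m y : ℝ, 0 < m ∧ m < 1 ∧ 0 ≤ y ∧ y ≤ -Real.log m ∧ Real.exp (-y) * (m + y) = M ∧
      m ≤ max 0 (1 + Real.log M) + ε := by
  have hlogM : Real.log M < 0 := Real.log_neg hM hM1
  rcases lt_or_ge 0 (1 + Real.log M) with hA | hB
  · refine ⟨1 + Real.log M, -Real.log M, hA, by linarith, by linarith, ?_, ?_, ?_⟩
    · have := Real.log_le_sub_one_of_pos hA
      linarith
    · rw [neg_neg, Real.exp_log hM]; ring
    · rw [max_eq_right hA.le]; linarith
  · have hlim : Tendsto (fun m : ℝ => m * m + Real.negMulLog m) (𝓝[>] 0) (𝓝 0) := by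
      have hc : Continuous (fun m : ℝ => m * m + Real.negMulLog m) :=
        (continuous_id.mul continuous_id).add Real.continuous_negMulLog
      have := hc.tendsto 0
      simp only [mul_zero, Real.negMulLog_zero, add_zero] at this
      exact this.mono_left nhdsWithin_le_nhds
    have h1 : ∀ᶠ m : ℝ in 𝓝[>] 0, m * m + Real.negMulLog m < M :=
      (tendsto_order.mp hlim).2 M hM
    have h2 : ∀ᶠ m : ℝ in 𝓝[>] 0, m < min ε 1 :=
      (eventually_lt_nhds (lt_min hε one_pos)).filter_mono nhdsWithin_le_nhds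
    have h3 : ∀ᶠ m : ℝ in 𝓝[>] 0, 0 < m := eventually_mem_nhdsWithin
    obtain ⟨m, ⟨hm1, hm2⟩, hm3⟩ := ((h1.and h2).and h3).exists
    have hmε : m < ε := lt_of_lt_of_le hm2 (min_le_left _ _)
    have hm1' : m < 1 := lt_of_lt_of_le hm2 (min_le_right _ _)
    have hle : 1 - m ≤ -Real.log m := by
      have := Real.log_le_sub_one_of_pos hm3
      linarith
    have hcont : ContinuousOn (fun y : ℝ => Real.exp (-y) * (m + y)) (Set.Icc (1 - m) (-Real.log m)) :=
      by fun_prop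
    have hiv := intermediate_value_Icc' hle hcont
    have hMmem : M ∈ Set.Icc (Real.exp (-(-Real.log m)) * (m + -Real.log m))
        (Real.exp (-(1 - m)) * (m + (1 - m))) := by
      constructor
      · rw [neg_neg, Real.exp_log hm3]
        have : m * (m + -Real.log m) = m * m + Real.negMulLog m := by
          unfold Real.negMulLog; ring
        linarith
      · have h4 : M ≤ Real.exp (-1) := by
          rw [← Real.exp_log hM]
          exact Real.exp_le_exp.mpr (by linarith)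
        have h5 : Real.exp (-1) ≤ Real.exp (-(1 - m)) := Real.exp_le_exp.mpr (by linarith)
        have h6 : m + (1 - m) = 1 := by ring
        rw [h6, mul_one]
        linarith
    obtain ⟨y, hy, hyM⟩ := hiv hMmem
    exact ⟨m, y, hm3, hm1', by linarith [hy.1], hy.2, hyM, by
      rw [max_eq_left hB]; linarith⟩

lemma exists_pfun {M ε : ℝ} (hM : 0 < M) (hM1 : M ≤ 1) (hε : 0 < ε) :
    ∃ p : ℝ≥0 → ℝ, IsPFunction p ∧ IsStandard p ∧ p 1 = M ∧
      infOn p ≤ max 0 (1 + Real.log M) + ε := by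
  rcases eq_or_lt_of_le hM1 with h | h
  · refine ⟨fun _ => 1, one_isPFunction, tendsto_const_nhds, h.symm, ?_⟩
    have := infOn_le one_isPFunction (t := 0) zero_le
    rw [h, Real.log_one]
    have h2 : (1 : ℝ) ≤ max 0 (1 + 0) := by norm_num
    linarith
  · obtain ⟨m, y, hm0, hm1, hy0, hy1, hyM, hmε⟩ := exists_params hM h hε
    set d : ℝ := -Real.log m with hd
    have hdpos : 0 < d := by rw [hd]; exact neg_pos.mpr (Real.log_neg hm0 hm1)
    have hapos : 0 < d + y := by linarith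
    refine ⟨pex d (d + y), pex_isPFunction hdpos hapos.le, pex_standard hdpos hapos.le, ?_, ?_⟩
    · rw [pex_mid hdpos 1 (by simp; linarith) (by simp; linarith)]
      rw [← hyM]
      have e1 : (d + y) * ((1 : ℝ≥0) : ℝ) = d + y := by simp
      rw [e1]
      have e2 : Real.exp (-(d + y)) = m * Real.exp (-y) := by
        rw [show -(d + y) = Real.log m + -y by rw [hd]; ring, Real.exp_add, Real.exp_log hm0]
      rw [e2, show d + y - d = y by ring]
      ring
    · have hx0 : 0 ≤ d / (d + y) := by positivity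
      obtain ⟨x, hxv⟩ : ∃ x : ℝ≥0, (x : ℝ) = d / (d + y) :=
        ⟨Real.toNNReal (d / (d + y)), Real.coe_toNNReal _ hx0⟩
      have hx1 : x ≤ 1 := by
        rw [← NNReal.coe_le_coe, hxv, NNReal.coe_one, div_le_one hapos]
        linarith
      have hax : (d + y) * (x : ℝ) = d := by
        rw [hxv]
        field_simp
      have h2 := infOn_le (pex_isPFunction hdpos hapos.le) hx1
      rw [pex_small hdpos hapos.le x hax.le, hax, hd, neg_neg, Real.exp_log hm0] at h2
      linarith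

/-- **The maximal oscillation problem.** For every `M ∈ (0, 1]`, the smallest possible value on
`[0, 1]` of a standard p-function with `p 1 = M` is `I(M) = max (0, 1 + log M)`. -/
theorem result (M : ℝ) (h0 : 0 < M) (h1 : M ≤ 1) : I M = max 0 (1 + Real.log M) := by
  apply le_antisymm
  · refine le_of_forall_pos_le_add (fun ε hε => ?_)
    obtain ⟨p, hp, hs, hpM, hle⟩ := exists_pfun h0 h1 hε
    refine le_trans (csInf_le ⟨0, ?_⟩ ⟨p, hp, hs, hpM, rfl⟩) hle
    rintro x ⟨q, hq, hqs, hqM, rfl⟩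
    exact (le_max_left _ _).trans (le_infOn hq hqs h0 hqM)
  · obtain ⟨p, hp, hs, hpM, _⟩ := exists_pfun h0 h1 one_pos
    refine le_csInf ⟨_, p, hp, hs, hpM, rfl⟩ ?_
    rintro x ⟨q, hq, hqs, hqM, rfl⟩
    exact le_infOn hq hqs h0 hqM

end Pool.Agent.Results.MP_5fed26_pr.MaxOscillation
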